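import Mathlib

set_option autoImplicit false

/-!
# MP_4fec65_co: a `ℤ₂`-symmetric simplicial 3-circuit that is not redundantly `{±I}`-rigid

Let `B` be the boundary complex of the 3-dimensional cross-polytope (vertices `0,1,2` and their
antipodes `3,4,5`), stacked symmetrically over the two opposite facets `{0,1,2}` and `{3,4,5}` (new
vertices `6` and `7`), and let `S` be its suspension (new vertices `8` and `9`). `S` is a simplicial
3-sphere with 10 vertices, 34 edges and 24 facets, its graph is 5-connected and it has the free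
simplicial involution `0↔3, 1↔4, 2↔5, 6↔7, 8↔9`. For every realisation `p` in `ℝ⁴` with
`p(v*) = -p(v)`, the six points `p(0), p(1), p(2), p(6), p(8), p(9)` of `ℝ⁴` are affinely dependent.
With `λ` a dependence, the self-stress `λ_i λ_j` of the complete graph on these six vertices minus its
mirror image has coefficient `0` at the missing edge `{8,9}`, and it does not use the edges `{0,4}`,
`{1,3}`. So `S` minus these two edges has an anti-symmetric self-stress, and by counting it has a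
nontrivial infinitesimal motion with `q(v*) = q(v)`.
-/

open Finset Matrix

namespace Pool.Agent.Results.MP_4fec65_co.RedundantFails

section Definitions

variable {V : Type} [Fintype V] [DecidableEq V]

/-- `∂T = ∅`: every `k`-element set lies in an even number of members of `T`. -/
def BoundaryEmpty (k : ℕ) (T : Finset (Finset V)) : Prop :=
  ∀ R : Finset V, R.card = k → Even (T.filter (fun F => R ⊆ F)).card

/-- `S` is a simplicial `k`-circuit with vertex set `V`: a nonempty set of `(k+1)`-element sets with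
union `V` and empty boundary, no nonempty proper subset of which has empty boundary. -/
structure IsCircuit (k : ℕ) (S : Finset (Finset V)) : Prop where
  card_facet : ∀ F ∈ S, F.card = k + 1
  nonempty : S.Nonempty
  spanning : ∀ v : V, ∃ F ∈ S, v ∈ F
  boundary : BoundaryEmpty k S
  minimal : ∀ T : Finset (Finset V), T ⊆ S → T.Nonempty → BoundaryEmpty k T → T = S

/-- `σ` is a free simplicial involution of `S`. -/
structure IsFreeInvolution (S : Finset (Finset V)) (σ : V → V) : Prop where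
  invol : ∀ v, σ (σ v) = v
  facet : ∀ F ∈ S, F.image σ ∈ S
  free : ∀ v, ∀ F ∈ S, ¬ (v ∈ F ∧ σ v ∈ F)

/-- The graph `G(S)`: its edges are the 2-element subsets of the facets. -/
def graph (S : Finset (Finset V)) : SimpleGraph V where
  Adj u v := u ≠ v ∧ ∃ F ∈ S, u ∈ F ∧ v ∈ F
  symm := ⟨fun _ _ h => ⟨h.1.symm, by
    obtain ⟨F, hF, hu, hv⟩ := h.2
    exact ⟨F, hF, hv, hu⟩⟩⟩
  loopless := ⟨fun _ h => h.1 rfl⟩

/-- `G` is `m`-connected: it has more than `m` vertices and no set of fewer than `m` vertices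
disconnects it. -/
def KConnected (m : ℕ) (G : SimpleGraph V) : Prop :=
  m < Fintype.card V ∧ ∀ X : Finset V, X.card < m → (G.induce {v | v ∉ X}).Connected

/-- The facets of `B_k`, the boundary complex of the `(k+1)`-dimensional cross-polytope: the vertex
`±e_i` is `(i, true)` or `(i, false)`, and a facet contains exactly one of `±e_i` for each `i`. -/
def crossFacets (k : ℕ) : Set (Finset (Fin (k + 1) × Bool)) :=
  {F | ∀ i, Xor ((i, true) ∈ F) ((i, false) ∈ F)}

/-- `S` (with vertex set `V`) is isomorphic to `B_k`. -/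
def IsCrossPolytope (k : ℕ) (S : Finset (Finset V)) : Prop :=
  ∃ f : V ≃ Fin (k + 1) × Bool, ∀ F : Finset V, F ∈ S ↔ F.map f.toEmbedding ∈ crossFacets k

/-- `q` is an infinitesimal motion of `(G, p)` in `ℝ^d`. -/
def IsMotion {d : ℕ} (G : SimpleGraph V) (p q : V → Fin d → ℝ) : Prop :=
  ∀ u v, G.Adj u v → (p u - p v) ⬝ᵥ (q u - q v) = 0

/-- `q` is a trivial infinitesimal motion: `q(v) = A p(v) + t` with `A` skew-symmetric. -/
def IsTrivial {d : ℕ} (p q : V → Fin d → ℝ) : Prop :=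
  ∃ (A : Matrix (Fin d) (Fin d) ℝ) (t : Fin d → ℝ), Aᵀ = -A ∧ ∀ v, q v = A *ᵥ p v + t

/-- `(G, p)` is infinitesimally rigid in `ℝ^d`. -/
def InfRigid {d : ℕ} (G : SimpleGraph V) (p : V → Fin d → ℝ) : Prop :=
  ∀ q : V → Fin d → ℝ, IsMotion G p q → IsTrivial p q

/-- `{I, τ}` is a point group of order two in `ℝ^d`. -/
def IsPointGroup {d : ℕ} (τ : Matrix (Fin d) (Fin d) ℝ) : Prop :=
  τ ≠ 1 ∧ τ * τ = 1 ∧ τᵀ * τ = 1

/-- `(G, σ)` is `Γ`-rigid in `ℝ^d` for `Γ = {I, τ}`. -/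
def GammaRigid {d : ℕ} (G : SimpleGraph V) (σ : V → V) (τ : Matrix (Fin d) (Fin d) ℝ) : Prop :=
  ∃ p : V → Fin d → ℝ, (∀ v, p (σ v) = τ *ᵥ p v) ∧ InfRigid G p

end Definitions

/-- The assertion of Q1 for the dimension `k`, with the connectivity assumption
`G(S)` is `(k+c)`-connected (in Q1, `c = 1`). -/
def Q1 (k c : ℕ) : Prop :=
  ∀ (V : Type) [Fintype V] [DecidableEq V] (S : Finset (Finset V)) (σ : V → V),
    IsCircuit k S → IsFreeInvolution S σ → ¬ IsCrossPolytope k S → KConnected (k + c) (graph S) →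
    ∀ τ : Matrix (Fin (k + 1)) (Fin (k + 1)) ℝ, IsPointGroup τ →
    ∀ u v : V, (graph S).Adj u v →
      GammaRigid ((graph S).deleteEdges {s(u, v), s(σ u, σ v)}) σ τ

/-! ### The circuit -/

/-- The 24 facets: the sets `b ∪ {8}` and `b ∪ {9}` for the 12 facets `b` of the stacked octahedron,
`{1,2,3}, {0,2,4}, {0,1,5}, {2,3,4}, {1,3,5}, {0,4,5}` and
`{1,2,6}, {0,2,6}, {0,1,6}, {4,5,7}, {3,5,7}, {3,4,7}`. -/
def fs : Fin 24 → Finset (Fin 10) :=
  ![{1, 2, 3, 8}, {2, 3, 4, 8}, {1, 3, 5, 8}, {1, 2, 6, 8}, {1, 2, 3, 9}, {0, 2, 4, 8},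
    {3, 4, 7, 8}, {2, 3, 4, 9}, {0, 1, 5, 8}, {3, 5, 7, 8}, {1, 3, 5, 9}, {0, 2, 6, 8},
    {0, 1, 6, 8}, {1, 2, 6, 9}, {0, 4, 5, 8}, {0, 2, 4, 9}, {4, 5, 7, 8}, {3, 4, 7, 9},
    {0, 1, 5, 9}, {3, 5, 7, 9}, {0, 2, 6, 9}, {0, 1, 6, 9}, {0, 4, 5, 9}, {4, 5, 7, 9}]

/-- The suspension of the stacked octahedron. -/
def S0 : Finset (Finset (Fin 10)) := univ.image fs

/-- The involution `v ↦ v*`. -/
def inv0 : Fin 10 → Fin 10 := ![3, 4, 5, 0, 1, 2, 7, 6, 9, 8]

theorem mem_S0 {F : Finset (Fin 10)} : F ∈ S0 ↔ ∃ i, fs i = F := by simp [S0]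

theorem fs_mem (i : Fin 24) : fs i ∈ S0 := mem_S0.2 ⟨i, rfl⟩

/-- For each facet but the first, the position of an earlier facet adjacent to it. -/
def par : Fin 24 → Fin 24 :=
  ![0, 0, 0, 0, 0, 1, 1, 1, 2, 2, 2, 3, 3, 3, 5, 5, 6, 6, 8, 9, 11, 12, 14, 16]

/-- The position of the image of a facet under the involution. -/
def st : Fin 24 → Fin 24 :=
  ![22, 18, 15, 23, 14, 10, 21, 8, 7, 20, 5, 19, 17, 16, 4, 2, 13, 12, 1, 11, 9, 6, 0, 3]

theorem card_fs : ∀ i, (fs i).card = 4 := by decide +kernel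

theorem span_fs : ∀ v : Fin 10, ∃ i, v ∈ fs i := by decide +kernel

theorem invol0 : ∀ v, inv0 (inv0 v) = v := by decide +kernel

theorem st_fs : ∀ i, fs (st i) = (fs i).image inv0 := by decide +kernel

theorem free_fs : ∀ v i, ¬ (v ∈ fs i ∧ inv0 v ∈ fs i) := by decide +kernel

theorem par_lt : ∀ i : Fin 24, i ≠ 0 → (par i < i ∧ (fs (par i) ∩ fs i).card = 3) := by
  decide +kernel

theorem ridge_fs : ∀ i j : Fin 24, (fs i ∩ fs j).card = 3 →
    ∀ l, fs i ∩ fs j ⊆ fs l → l = i ∨ l = j := by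
  decide +kernel

theorem fs_inj : ∀ i j : Fin 24, fs i ⊆ fs j → i = j := by decide +kernel

theorem even_fs : ∀ a b c : Fin 10, a ≠ b → a ≠ c → b ≠ c →
    (univ.filter (fun i => a ∈ fs i ∧ b ∈ fs i ∧ c ∈ fs i)).card % 2 = 0 := by
  decide +kernel

theorem fs_injective : Function.Injective fs := fun i j h => fs_inj i j h.subset

theorem boundary0 : BoundaryEmpty 3 S0 := by
  intro R hR
  obtain ⟨a, b, c, hab, hac, hbc, rfl⟩ := card_eq_three.1 hR
  have h1 : (S0.filter (fun F => {a, b, c} ⊆ F)).card =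
      (univ.filter (fun i => a ∈ fs i ∧ b ∈ fs i ∧ c ∈ fs i)).card := by
    rw [S0, filter_image, card_image_of_injective _ fs_injective]
    congr 1
    ext i
    simp [insert_subset_iff]
  rw [h1]
  exact Nat.even_iff.2 (even_fs a b c hab hac hbc)

theorem step_mem {T : Finset (Finset (Fin 10))} (hT : T ⊆ S0) (hb : BoundaryEmpty 3 T)
    {i j : Fin 24} (hi : fs i ∈ T) (hc : (fs i ∩ fs j).card = 3) : fs j ∈ T := by
  by_contra hn
  have h1 : T.filter (fun K => fs i ∩ fs j ⊆ K) = {fs i} := by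
    ext K
    simp only [mem_filter, mem_singleton]
    constructor
    · rintro ⟨hK, hs⟩
      obtain ⟨l, rfl⟩ := mem_S0.1 (hT hK)
      rcases ridge_fs i j hc l hs with h | h
      · rw [h]
      · exact absurd (h ▸ hK) hn
    · rintro rfl
      exact ⟨hi, inter_subset_left⟩
  have h2 := hb (fs i ∩ fs j) hc
  rw [h1] at h2
  simp at h2

theorem circuit0 : IsCircuit 3 S0 := by
  refine ⟨?_, ⟨_, fs_mem 0⟩, ?_, boundary0, ?_⟩
  · intro F hF
    obtain ⟨i, rfl⟩ := mem_S0.1 hF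
    exact card_fs i
  · intro v
    obtain ⟨i, hi⟩ := span_fs v
    exact ⟨_, fs_mem i, hi⟩
  intro T hT hne hb
  have hdown : ∀ n : ℕ, ∀ i : Fin 24, i.val = n → fs i ∈ T → fs 0 ∈ T := by
    intro n
    induction n using Nat.strong_induction_on with
    | _ n ih =>
      intro i hi hm
      by_cases h0 : i = 0
      · rw [← h0]; exact hm
      · obtain ⟨hlt, hcard⟩ := par_lt i h0
        refine ih (par i).val (by rw [← hi]; exact hlt) (par i) rfl ?_
        refine step_mem hT hb hm ?_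
        rw [inter_comm]; exact hcard
  have hup : fs 0 ∈ T → ∀ n : ℕ, ∀ i : Fin 24, i.val = n → fs i ∈ T := by
    intro h0 n
    induction n using Nat.strong_induction_on with
    | _ n ih =>
      intro i hi
      by_cases hz : i = 0
      · rw [hz]; exact h0
      · obtain ⟨hlt, hcard⟩ := par_lt i hz
        exact step_mem hT hb (ih (par i).val (by rw [← hi]; exact hlt) (par i) rfl) hcard
  obtain ⟨F, hF⟩ := hne
  obtain ⟨i, hi⟩ := mem_S0.1 (hT hF)
  have h0 : fs 0 ∈ T := hdown i.val i rfl (by rw [hi]; exact hF)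
  refine subset_antisymm hT ?_
  intro K hK
  obtain ⟨j, hj⟩ := mem_S0.1 hK
  rw [← hj]
  exact hup h0 j.val j rfl

theorem inv0_free : IsFreeInvolution S0 inv0 := by
  refine ⟨invol0, ?_, ?_⟩
  · intro F hF
    obtain ⟨i, rfl⟩ := mem_S0.1 hF
    rw [← st_fs i]
    exact fs_mem _
  · intro v F hF
    obtain ⟨i, rfl⟩ := mem_S0.1 hF
    exact free_fs v i

theorem not_cross0 : ¬ IsCrossPolytope 3 S0 := by
  rintro ⟨f, -⟩
  have h := Fintype.card_congr f
  simp at h

/-! ### Connectivity -/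

/-- The neighbourhoods in the graph. -/
def nb : Fin 10 → Finset (Fin 10) :=
  ![{1, 2, 4, 5, 6, 8, 9}, {0, 2, 3, 5, 6, 8, 9}, {0, 1, 3, 4, 6, 8, 9}, {1, 2, 4, 5, 7, 8, 9},
    {0, 2, 3, 5, 7, 8, 9}, {0, 1, 3, 4, 7, 8, 9}, {0, 1, 2, 8, 9}, {3, 4, 5, 8, 9},
    {0, 1, 2, 3, 4, 5, 6, 7}, {0, 1, 2, 3, 4, 5, 6, 7}]

theorem nb_fs : ∀ x y : Fin 10, (x ≠ y ∧ ∃ i, x ∈ fs i ∧ y ∈ fs i) ↔ y ∈ nb x := by
  decide +kernel

theorem adj_iff (x y : Fin 10) : (graph S0).Adj x y ↔ y ∈ nb x := by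
  rw [← nb_fs]
  constructor
  · rintro ⟨h, F, hF, hx, hy⟩
    obtain ⟨i, rfl⟩ := mem_S0.1 hF
    exact ⟨h, i, hx, hy⟩
  · rintro ⟨h, i, hx, hy⟩
    exact ⟨h, fs i, fs_mem i, hx, hy⟩

/-- `w` is not one of `8, 9, y, z`. -/
def ok (y z w : Fin 10) : Prop := w ≠ 8 ∧ w ≠ 9 ∧ w ≠ y ∧ w ≠ z

instance (y z w : Fin 10) : Decidable (ok y z w) := by unfold ok; infer_instance

theorem hub : ∀ y z : Fin 10, ∃ h, ok y z h ∧ ∀ u, ok y z u →
    ∃ w, ok y z w ∧ (u = w ∨ w ∈ nb u) ∧ (w = h ∨ h ∈ nb w) := by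
  decide +kernel

theorem apex : ∀ x : Fin 10, x ≠ 8 → x ≠ 9 → 8 ∈ nb x ∧ 9 ∈ nb x := by decide +kernel

theorem connected_of_hub {X : Finset (Fin 10)} (h : Fin 10) (hh : h ∉ X)
    (hc : ∀ u, u ∉ X → ∃ w, w ∉ X ∧ (u = w ∨ (graph S0).Adj u w) ∧
      (w = h ∨ (graph S0).Adj w h)) :
    ((graph S0).induce {v | v ∉ X}).Connected := by
  have hr : ∀ u : {v | v ∉ X}, ((graph S0).induce {v | v ∉ X}).Reachable u ⟨h, hh⟩ := by
    rintro ⟨u, hu⟩
    obtain ⟨w, hw, h1, h2⟩ := hc u hu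
    have r1 : ((graph S0).induce {v | v ∉ X}).Reachable ⟨u, hu⟩ ⟨w, hw⟩ := by
      rcases h1 with rfl | h1
      · exact SimpleGraph.Reachable.refl _
      · exact SimpleGraph.Adj.reachable (by simpa using h1)
    have r2 : ((graph S0).induce {v | v ∉ X}).Reachable ⟨w, hw⟩ ⟨h, hh⟩ := by
      rcases h2 with rfl | h2
      · exact SimpleGraph.Reachable.refl _
      · exact SimpleGraph.Adj.reachable (by simpa using h2)
    exact r1.trans r2
  rw [SimpleGraph.connected_iff_exists_forall_reachable]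
  exact ⟨⟨h, hh⟩, fun w => (hr w).symm⟩

theorem adj_apex {x h : Fin 10} (hh : h = 8 ∨ h = 9) (h8 : x ≠ 8) (h9 : x ≠ 9) :
    (graph S0).Adj x h := by
  rw [adj_iff]
  rcases hh with rfl | rfl
  · exact (apex x h8 h9).1
  · exact (apex x h8 h9).2

theorem kconnected0 : KConnected 5 (graph S0) := by
  refine ⟨by simp, fun X hX => ?_⟩
  have hap : ∀ h : Fin 10, (h = 8 ∨ h = 9) → h ∉ X →
      ((graph S0).induce {v | v ∉ X}).Connected := by
    intro h hh hX'
    refine connected_of_hub h hX' ?_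
    intro u hu
    by_cases hu8 : u = 8 ∨ u = 9
    · have hcard : (X ∪ {8, 9}).card < (univ : Finset (Fin 10)).card := by
        refine lt_of_le_of_lt (card_union_le _ _) ?_
        have : ({8, 9} : Finset (Fin 10)).card ≤ 2 := card_le_two
        rw [card_univ, Fintype.card_fin]
        omega
      obtain ⟨x, -, hx⟩ := exists_mem_notMem_of_card_lt_card hcard
      simp only [mem_union, mem_insert, mem_singleton, not_or] at hx
      exact ⟨x, hx.1, Or.inr (adj_apex hu8 hx.2.1 hx.2.2).symm,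
        Or.inr (adj_apex hh hx.2.1 hx.2.2)⟩
    · rw [not_or] at hu8
      exact ⟨u, hu, Or.inl rfl, Or.inr (adj_apex hh hu8.1 hu8.2)⟩
  by_cases h8 : (8 : Fin 10) ∉ X
  · exact hap 8 (Or.inl rfl) h8
  by_cases h9 : (9 : Fin 10) ∉ X
  · exact hap 9 (Or.inr rfl) h9
  rw [not_not] at h8 h9
  have hY : ((X.erase 8).erase 9).card ≤ 2 := by
    rw [card_erase_of_mem (mem_erase.2 ⟨by decide, h9⟩), card_erase_of_mem h8]
    omega
  have hyz : ∃ y z, y ∈ X ∧ z ∈ X ∧ (X.erase 8).erase 9 ⊆ {y, z} := by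
    have h3 : ((X.erase 8).erase 9).card = 0 ∨ ((X.erase 8).erase 9).card = 1 ∨
        ((X.erase 8).erase 9).card = 2 := by omega
    have hsub : (X.erase 8).erase 9 ⊆ X := (erase_subset _ _).trans (erase_subset _ _)
    rcases h3 with h | h | h
    · rw [card_eq_zero] at h
      exact ⟨8, 8, h8, h8, by rw [h]; exact empty_subset _⟩
    · obtain ⟨y, hy⟩ := card_eq_one.1 h
      have : y ∈ X := hsub (by rw [hy]; simp)
      exact ⟨y, y, this, this, by rw [hy]; simp⟩
    · obtain ⟨y, z, -, hy⟩ := card_eq_two.1 h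
      exact ⟨y, z, hsub (by rw [hy]; simp), hsub (by rw [hy]; simp), by rw [hy]⟩
  obtain ⟨y, z, hy, hz, hsub⟩ := hyz
  have hok : ∀ w, w ∉ X ↔ ok y z w := by
    intro w
    constructor
    · intro hw
      exact ⟨fun h => hw (h ▸ h8), fun h => hw (h ▸ h9), fun h => hw (h ▸ hy),
        fun h => hw (h ▸ hz)⟩
    · rintro ⟨w8, w9, wy, wz⟩ hw
      have := hsub (mem_erase.2 ⟨w9, mem_erase.2 ⟨w8, hw⟩⟩)
      simp [wy, wz] at this
  obtain ⟨h, hh, hall⟩ := hub y z
  refine connected_of_hub h ((hok h).2 hh) ?_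
  intro u hu
  obtain ⟨w, hw, h1, h2⟩ := hall u ((hok u).1 hu)
  exact ⟨w, (hok w).2 hw, by rw [adj_iff]; exact h1, by rw [adj_iff]; exact h2⟩

/-! ### The anti-symmetric stress and the motion -/

/-- Representatives of the 16 orbits of edges other than `{0,4}` and `{3,1}`. -/
def ed : Fin 16 → Fin 10 × Fin 10 :=
  ![(0, 1), (0, 2), (1, 2), (0, 5), (1, 5), (6, 0), (6, 1), (6, 2),
    (8, 0), (8, 1), (8, 2), (8, 3), (8, 4), (8, 5), (8, 6), (8, 7)]

theorem edge_cover : ∀ x y : Fin 10, y ∈ nb x → ¬ (x = 0 ∧ y = 4) → ¬ (x = 4 ∧ y = 0) →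
    ¬ (x = 3 ∧ y = 1) → ¬ (x = 1 ∧ y = 3) →
    ∃ e, ed e = (x, y) ∨ ed e = (y, x) ∨ ed e = (inv0 x, inv0 y) ∨ ed e = (inv0 y, inv0 x) := by
  decide +kernel

/-- The orbit of a vertex under the involution. -/
def rep : Fin 10 → Fin 5 := ![0, 1, 2, 0, 1, 2, 3, 3, 4, 4]

theorem rep_inv : ∀ x, rep (inv0 x) = rep x := by decide +kernel

/-- The length constraints of the edges `ed e` on a velocity field `v ↦ q (rep v)`. -/
def L (p : Fin 10 → Fin 4 → ℝ) : (Fin 5 → Fin 4 → ℝ) →ₗ[ℝ] (Fin 16 → ℝ) where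
  toFun q e := (p (ed e).1 - p (ed e).2) ⬝ᵥ (q (rep (ed e).1) - q (rep (ed e).2))
  map_add' q q' := by
    funext e
    simp only [Pi.add_apply]
    rw [← dotProduct_add]
    congr 1
    abel
  map_smul' a q := by
    funext e
    simp only [Pi.smul_apply, RingHom.id_apply]
    rw [← smul_sub, dotProduct_smul]

theorem key (l0 l1 l2 l6 l8 l9 p0 p1 p2 p6 p8 q0 q1 q2 q6 q8 : ℝ)
    (h1 : l0 + l1 + l2 + l6 + l8 + l9 = 0)
    (h2 : l0 * p0 + l1 * p1 + l2 * p2 + l6 * p6 + l8 * p8 - l9 * p8 = 0) :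
    l0 * l1 * ((p0 - p1) * (q0 - q1)) + l0 * l2 * ((p0 - p2) * (q0 - q2))
      + l1 * l2 * ((p1 - p2) * (q1 - q2)) + l6 * l0 * ((p6 - p0) * (q6 - q0))
      + l6 * l1 * ((p6 - p1) * (q6 - q1)) + l6 * l2 * ((p6 - p2) * (q6 - q2))
      + l8 * l0 * ((p8 - p0) * (q8 - q0)) + l8 * l1 * ((p8 - p1) * (q8 - q1))
      + l8 * l2 * ((p8 - p2) * (q8 - q2)) - l9 * l0 * ((p8 + p0) * (q8 - q0))
      - l9 * l1 * ((p8 + p1) * (q8 - q1)) - l9 * l2 * ((p8 + p2) * (q8 - q2))
      + l8 * l6 * ((p8 - p6) * (q8 - q6)) - l9 * l6 * ((p8 + p6) * (q8 - q6)) = 0 := by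
  linear_combination (l0 * p0 * q0 + l1 * p1 * q1 + l2 * p2 * q2 + l6 * p6 * q6 + l8 * p8 * q8
    - l9 * p8 * q8) * h1 - (l0 * q0 + l1 * q1 + l2 * q2 + l6 * q6 + l8 * q8 + l9 * q8) * h2

/-- Six points of `ℝ⁴` are affinely dependent. -/
theorem exists_dep (P : Fin 6 → Fin 4 → ℝ) :
    ∃ l : Fin 6 → ℝ, l ≠ 0 ∧ ∑ i, l i = 0 ∧ ∀ k, ∑ i, l i * P i k = 0 := by
  let f : (Fin 6 → ℝ) →ₗ[ℝ] (Fin 4 → ℝ) × ℝ :=
    { toFun := fun l => (fun k => ∑ i, l i * P i k, ∑ i, l i)
      map_add' := by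
        intro a b
        ext
        · simp [add_mul, sum_add_distrib]
        · simp [sum_add_distrib]
      map_smul' := by
        intro c a
        ext
        · simp [mul_assoc, mul_sum]
        · simp [mul_sum] }
  have hk : LinearMap.ker f ≠ ⊥ := LinearMap.ker_ne_bot_of_finrank_lt (by simp)
  obtain ⟨l, hl, hl0⟩ := (Submodule.ne_bot_iff _).1 hk
  rw [LinearMap.mem_ker] at hl
  refine ⟨l, hl0, congrArg Prod.snd hl, fun k => ?_⟩
  exact congrFun (congrArg Prod.fst hl) k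

theorem sum16 (c0 c1 c2 c3 c4 c5 c6 c7 c8 c9 c10 c11 c12 c13 c14 c15 : ℝ) (M : Fin 16 → ℝ) :
    ∑ e, (![c0, c1, c2, c3, c4, c5, c6, c7, c8, c9, c10, c11, c12, c13, c14, c15] :
      Fin 16 → ℝ) e * M e =
    c0 * M 0 + c1 * M 1 + c2 * M 2 + c3 * M 3 + c4 * M 4 + c5 * M 5 + c6 * M 6 + c7 * M 7
      + c8 * M 8 + c9 * M 9 + c10 * M 10 + c11 * M 11 + c12 * M 12 + c13 * M 13 + c14 * M 14
      + c15 * M 15 := by
  simp only [Fin.sum_univ_succ]
  simp
  ring

/-- The 16 length constraints are linearly dependent. -/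
theorem exists_relation (p : Fin 10 → Fin 4 → ℝ) (hp : ∀ v, p (inv0 v) = - p v) :
    ∃ c : Fin 16 → ℝ, c ≠ 0 ∧ ∀ q, ∑ e, c e * L p q e = 0 := by
  have e3 : p 3 = - p 0 := hp 0
  have e4 : p 4 = - p 1 := hp 1
  have e5 : p 5 = - p 2 := hp 2
  have e7 : p 7 = - p 6 := hp 6
  have e9 : p 9 = - p 8 := hp 8
  obtain ⟨l, hl0, hs, hk⟩ := exists_dep ![p 0, p 1, p 2, p 6, p 8, p 9]
  simp only [Fin.sum_univ_six] at hs
  have hk' : ∀ k, l 0 * p 0 k + l 1 * p 1 k + l 2 * p 2 k + l 3 * p 6 k + l 4 * p 8 k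
      - l 5 * p 8 k = 0 := by
    intro k
    have h := hk k
    simp only [Fin.sum_univ_six] at h
    have h5 : p 9 k = - p 8 k := by rw [e9]; rfl
    simp at h
    rw [h5] at h
    linarith
  have L0 : ∀ q, L p q 0 = (p 0 - p 1) ⬝ᵥ (q 0 - q 1) := fun _ => rfl
  have L1 : ∀ q, L p q 1 = (p 0 - p 2) ⬝ᵥ (q 0 - q 2) := fun _ => rfl
  have L2 : ∀ q, L p q 2 = (p 1 - p 2) ⬝ᵥ (q 1 - q 2) := fun _ => rfl
  have L5 : ∀ q, L p q 5 = (p 6 - p 0) ⬝ᵥ (q 3 - q 0) := fun _ => rfl
  have L6 : ∀ q, L p q 6 = (p 6 - p 1) ⬝ᵥ (q 3 - q 1) := fun _ => rfl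
  have L7 : ∀ q, L p q 7 = (p 6 - p 2) ⬝ᵥ (q 3 - q 2) := fun _ => rfl
  have L8 : ∀ q, L p q 8 = (p 8 - p 0) ⬝ᵥ (q 4 - q 0) := fun _ => rfl
  have L9 : ∀ q, L p q 9 = (p 8 - p 1) ⬝ᵥ (q 4 - q 1) := fun _ => rfl
  have L10 : ∀ q, L p q 10 = (p 8 - p 2) ⬝ᵥ (q 4 - q 2) := fun _ => rfl
  have L11 : ∀ q, L p q 11 = (p 8 - p 3) ⬝ᵥ (q 4 - q 0) := fun _ => rfl
  have L12 : ∀ q, L p q 12 = (p 8 - p 4) ⬝ᵥ (q 4 - q 1) := fun _ => rfl
  have L13 : ∀ q, L p q 13 = (p 8 - p 5) ⬝ᵥ (q 4 - q 2) := fun _ => rfl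
  have L14 : ∀ q, L p q 14 = (p 8 - p 6) ⬝ᵥ (q 4 - q 3) := fun _ => rfl
  have L15 : ∀ q, L p q 15 = (p 8 - p 7) ⬝ᵥ (q 4 - q 3) := fun _ => rfl
  by_cases h8 : p 8 = 0
  · -- the vertices `8` and `9` are placed at the origin
    refine ⟨![0, 0, 0, 0, 0, 0, 0, 0, 1, 0, 0, 1, 0, 0, 0, 0], ?_, ?_⟩
    · intro h
      have := congrFun h 8
      simp at this
    · intro q
      rw [sum16, L8, L11, h8, e3]
      simp
  · refine ⟨![l 0 * l 1, l 0 * l 2, l 1 * l 2, 0, 0, l 3 * l 0, l 3 * l 1, l 3 * l 2,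
      l 4 * l 0, l 4 * l 1, l 4 * l 2, - (l 5 * l 0), - (l 5 * l 1), - (l 5 * l 2),
      l 4 * l 3, - (l 5 * l 3)], ?_, ?_⟩
    · intro h
      have c0 : l 0 * l 1 = 0 := congrFun h 0
      have c1 : l 0 * l 2 = 0 := congrFun h 1
      have c2 : l 1 * l 2 = 0 := congrFun h 2
      have c5 : l 3 * l 0 = 0 := congrFun h 5
      have c6 : l 3 * l 1 = 0 := congrFun h 6
      have c7 : l 3 * l 2 = 0 := congrFun h 7
      have c8 : l 4 * l 0 = 0 := congrFun h 8
      have c9 : l 4 * l 1 = 0 := congrFun h 9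
      have c10 : l 4 * l 2 = 0 := congrFun h 10
      have c11 : - (l 5 * l 0) = 0 := congrFun h 11
      have c12 : - (l 5 * l 1) = 0 := congrFun h 12
      have c13 : - (l 5 * l 2) = 0 := congrFun h 13
      have c14 : l 4 * l 3 = 0 := congrFun h 14
      have c15 : - (l 5 * l 3) = 0 := congrFun h 15
      have z0 : l 0 = 0 := by
        have : l 0 * l 0 = 0 := by linear_combination l 0 * hs - c0 - c1 - c5 - c8 + c11
        exact mul_self_eq_zero.1 this
      have z1 : l 1 = 0 := by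
        have : l 1 * l 1 = 0 := by linear_combination l 1 * hs - c0 - c2 - c6 - c9 + c12
        exact mul_self_eq_zero.1 this
      have z2 : l 2 = 0 := by
        have : l 2 * l 2 = 0 := by linear_combination l 2 * hs - c1 - c2 - c7 - c10 + c13
        exact mul_self_eq_zero.1 this
      have z3 : l 3 = 0 := by
        have : l 3 * l 3 = 0 := by linear_combination l 3 * hs - c5 - c6 - c7 - c14 + c15
        exact mul_self_eq_zero.1 this
      have z5 : l 5 = - l 4 := by linear_combination hs - z0 - z1 - z2 - z3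
      have z4 : l 4 = 0 := by
        by_contra h4
        apply h8
        funext k
        have := hk' k
        rw [z0, z1, z2, z3, z5] at this
        have h2 : l 4 * p 8 k = 0 := by linear_combination this / 2
        exact (mul_eq_zero.1 h2).resolve_left h4
      apply hl0
      funext i
      fin_cases i
      · exact z0
      · exact z1
      · exact z2
      · exact z3
      · exact z4
      · exact z5.trans (by rw [z4]; simp)
    · intro q
      have K := fun k => key (l 0) (l 1) (l 2) (l 3) (l 4) (l 5) (p 0 k) (p 1 k) (p 2 k) (p 6 k)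
        (p 8 k) (q 0 k) (q 1 k) (q 2 k) (q 3 k) (q 4 k) hs (hk' k)
      rw [sum16, L0, L1, L2, L5, L6, L7, L8, L9, L10, L11, L12, L13, L14, L15, e3, e4, e5, e7]
      simp only [dotProduct, Fin.sum_univ_four, Pi.sub_apply, Pi.neg_apply]
      linear_combination K 0 + K 1 + K 2 + K 3

/-- The positions of representatives of the orbits. -/
def lift5 : Fin 5 → Fin 10 := ![0, 1, 2, 6, 8]

theorem rep_lift : ∀ i, rep (lift5 i) = i := by decide +kernel

/-- The constant velocity fields. -/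
def cst : (Fin 4 → ℝ) →ₗ[ℝ] (Fin 5 → Fin 4 → ℝ) where
  toFun t := fun _ => t
  map_add' _ _ := rfl
  map_smul' _ _ := rfl

/-- No centrally symmetric realisation of `G(S) - {0,4} - {3,1}` is infinitesimally rigid. -/
theorem not_rigid (p : Fin 10 → Fin 4 → ℝ) (hp : ∀ v, p (inv0 v) = - p v) :
    ¬ InfRigid ((graph S0).deleteEdges {s(0, 4), s(3, 1)}) p := by
  intro hr
  obtain ⟨c, hc, hrel⟩ := exists_relation p hp
  have h1 : Module.finrank ℝ (LinearMap.range (L p)) < 16 := by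
    have hne : LinearMap.range (L p) ≠ ⊤ := by
      intro htop
      apply hc
      funext e
      have hm : (Pi.single e (1 : ℝ) : Fin 16 → ℝ) ∈ LinearMap.range (L p) := by
        rw [htop]; exact Submodule.mem_top
      obtain ⟨q, hq⟩ := hm
      have := hrel q
      rw [hq] at this
      simpa [Pi.single_apply] using this
    have := Submodule.finrank_lt hne
    simpa using this
  have h2 := LinearMap.finrank_range_add_finrank_ker (L p)
  have h3 : Module.finrank ℝ (Fin 5 → Fin 4 → ℝ) = 20 := by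
    rw [Module.finrank_pi_fintype]; simp
  have h4 : LinearMap.ker (L p) ≤ LinearMap.range cst := by
    intro q hq
    rw [LinearMap.mem_ker] at hq
    have hL : ∀ e, (p (ed e).1 - p (ed e).2) ⬝ᵥ (q (rep (ed e).1) - q (rep (ed e).2)) = 0 :=
      fun e => congrFun hq e
    have hmot : IsMotion ((graph S0).deleteEdges {s(0, 4), s(3, 1)}) p (fun x => q (rep x)) := by
      intro x y hxy
      rw [SimpleGraph.deleteEdges_adj, adj_iff] at hxy
      obtain ⟨hxy, hdel⟩ := hxy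
      simp only [Set.mem_insert_iff, Set.mem_singleton_iff, Sym2.eq_iff, not_or] at hdel
      obtain ⟨⟨d1, d2⟩, d3, d4⟩ := hdel
      obtain ⟨e, he⟩ := edge_cover x y hxy d1 d2 d3 d4
      have hsw : ∀ a b : Fin 10, (p a - p b) ⬝ᵥ (q (rep a) - q (rep b)) = 0 →
          (p b - p a) ⬝ᵥ (q (rep b) - q (rep a)) = 0 := by
        intro a b h
        rw [← neg_sub (p a), ← neg_sub (q (rep a)), neg_dotProduct_neg]
        exact h
      have hst : ∀ a b : Fin 10,
          (p (inv0 a) - p (inv0 b)) ⬝ᵥ (q (rep (inv0 a)) - q (rep (inv0 b))) = 0 →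
          (p a - p b) ⬝ᵥ (q (rep a) - q (rep b)) = 0 := by
        intro a b h
        rw [rep_inv, rep_inv, hp, hp, neg_sub_neg, ← neg_sub (p a), neg_dotProduct,
          neg_eq_zero] at h
        exact h
      have hLe := hL e
      rcases he with he | he | he | he
      · rw [he] at hLe; exact hLe
      · rw [he] at hLe; exact hsw _ _ hLe
      · rw [he] at hLe; exact hst _ _ hLe
      · rw [he] at hLe; exact hsw _ _ (hst _ _ hLe)
    obtain ⟨A, t, -, hA⟩ := hr _ hmot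
    refine ⟨t, ?_⟩
    funext i
    have a1 : q i = A *ᵥ p (lift5 i) + t := by
      have := hA (lift5 i)
      simp only [rep_lift] at this
      exact this
    have a2 : q i = - (A *ᵥ p (lift5 i)) + t := by
      have := hA (inv0 (lift5 i))
      simp only [rep_inv, rep_lift, hp, mulVec_neg] at this
      exact this
    have a3 : q i = t := by
      funext k
      have b1 := congrFun a1 k
      have b2 := congrFun a2 k
      simp only [Pi.add_apply, Pi.neg_apply] at b1 b2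
      linarith
    exact a3.symm
  have h5 : Module.finrank ℝ (LinearMap.range cst) ≤ 4 := by
    have := LinearMap.finrank_range_le cst
    simpa using this
  have h6 := Submodule.finrank_mono h4
  rw [h3] at h2
  omega

theorem neg_one_group : IsPointGroup (-1 : Matrix (Fin 4) (Fin 4) ℝ) := by
  refine ⟨?_, by simp, by simp⟩
  intro h
  have := congrFun (congrFun h 0) 0
  simp at this
  norm_num at this

/-- **The answer to Q1 of MP_4fec65_co is no.** There is a `ℤ₂`-symmetric simplicial 3-circuit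
`(S0, *)` on 10 vertices, not isomorphic to `B_3`, whose graph is 5-connected, and an edge `e` such that
no centrally symmetric realisation of `G(S0) - e - e*` in `ℝ⁴` is infinitesimally rigid. Hence the
assertion of Q1 fails for `k = 3`, with the assumption `(k+1)`-connected as stated, and also with
the stronger assumption `(k+2)`-connected. -/
theorem result :
    (IsCircuit 3 S0 ∧ IsFreeInvolution S0 inv0 ∧ ¬ IsCrossPolytope 3 S0 ∧
      KConnected 5 (graph S0) ∧ (graph S0).Adj 0 4 ∧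
      ∀ p : Fin 10 → Fin 4 → ℝ, (∀ v, p (inv0 v) = - p v) →
        ¬ InfRigid ((graph S0).deleteEdges {s(0, 4), s(inv0 0, inv0 4)}) p) ∧
    ¬ Q1 3 1 ∧ ¬ Q1 3 2 := by
  have hadj : (graph S0).Adj 0 4 := by rw [adj_iff]; decide +kernel
  have hk4 : KConnected 4 (graph S0) :=
    ⟨by simp, fun X hX => kconnected0.2 X (by omega)⟩
  have hno : ¬ GammaRigid ((graph S0).deleteEdges {s(0, 4), s(inv0 0, inv0 4)}) inv0
      (-1 : Matrix (Fin 4) (Fin 4) ℝ) := by
    rintro ⟨p, hp, hr⟩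
    refine not_rigid p (fun v => (hp v).trans ?_) hr
    rw [neg_mulVec, one_mulVec]
  refine ⟨⟨circuit0, inv0_free, not_cross0, kconnected0, hadj, fun p hp => not_rigid p hp⟩,
    ?_, ?_⟩
  · intro h
    exact hno (h (Fin 10) S0 inv0 circuit0 inv0_free not_cross0 hk4 (-1) neg_one_group 0 4 hadj)
  · intro h
    exact hno (h (Fin 10) S0 inv0 circuit0 inv0_free not_cross0 kconnected0 (-1) neg_one_group
      0 4 hadj)

end Pool.Agent.Results.MP_4fec65_co.RedundantFails
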